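import Mathlib

open Finset Filter

namespace Pool.Agent.Results.MP_bbacab_nt.Ample

/-- The number of recursive divisors: `a n = 1 + ∑ a m` over the proper divisors `m` of `n`. -/
def a (n : ℕ) : ℕ := 1 + ∑ m ∈ n.properDivisors.attach, a m.1
termination_by n
decreasing_by exact (Nat.mem_properDivisors.1 m.2).2

lemma a_eq (n : ℕ) : a n = 1 + ∑ m ∈ n.properDivisors, a m := by
  rw [a, Finset.sum_attach n.properDivisors a]

lemma prime_sum (C : ℝ) : ∃ K : ℕ, C ≤ ∑ p ∈ (range K).filter Nat.Prime, (1 / (p : ℝ)) := by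
  have h := (not_summable_iff_tendsto_nat_atTop_of_nonneg (fun n => Set.indicator_nonneg
    (fun _ _ => by positivity) n)).1 not_summable_one_div_on_primes
  obtain ⟨K, hK⟩ := (h.eventually_ge_atTop C).exists
  refine ⟨K, hK.trans (le_of_eq ?_)⟩
  rw [Finset.sum_filter]
  refine Finset.sum_congr rfl fun p _ => ?_
  simp only [Set.indicator_apply, Set.mem_ofPred_eq]

lemma exists_primes (B : ℕ) : ∃ P : Finset ℕ, (∀ p ∈ P, p.Prime ∧ B ≤ p) ∧
    (2 : ℝ) ≤ ∑ p ∈ P, (1 / (p : ℝ)) := by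
  obtain ⟨K, hK⟩ := prime_sum (2 + ∑ p ∈ range B, (1 / (p : ℝ)))
  refine ⟨((range K).filter Nat.Prime).filter (B ≤ ·), fun p hp => ?_, ?_⟩
  · simp only [mem_filter] at hp
    exact ⟨hp.1.2, hp.2⟩
  · rw [← Finset.sum_filter_add_sum_filter_not ((range K).filter Nat.Prime) (B ≤ ·)] at hK
    have : ∑ p ∈ ((range K).filter Nat.Prime).filter (fun p => ¬ B ≤ p), (1 / (p : ℝ)) ≤
        ∑ p ∈ range B, (1 / (p : ℝ)) := by
      apply Finset.sum_le_sum_of_subset_of_nonneg
      · intro p hp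
        simp only [mem_filter, mem_range] at hp ⊢
        omega
      · intro _ _ _; positivity
    linarith

lemma grow (P : Finset ℕ) (hP : ∀ p ∈ P, p.Prime) (h2 : (2 : ℝ) ≤ ∑ p ∈ P, (1 / (p : ℝ))) (j : ℕ) :
    (2 : ℝ) ^ j ≤ ∑ n ∈ ((∏ p ∈ P, p) ^ j).divisors, (a n : ℝ) / n := by
  have hQ : (∏ p ∈ P, p) ≠ 0 := Finset.prod_ne_zero_iff.2 fun p hp => (hP p hp).ne_zero
  induction j with
  | zero => simp [a_eq 1]
  | succ j ih =>
    set D := ((∏ p ∈ P, p) ^ j).divisors with hD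
    have hmap : ∀ z ∈ P ×ˢ D, z.1 * z.2 ∈ ((∏ p ∈ P, p) ^ (j + 1)).divisors := by
      rintro ⟨p, m⟩ hz
      simp only [mem_product, hD, Nat.mem_divisors] at hz ⊢
      refine ⟨?_, pow_ne_zero _ hQ⟩
      rw [pow_succ']
      exact mul_dvd_mul (Finset.dvd_prod_of_mem _ hz.1) hz.2.1
    calc (2 : ℝ) ^ (j + 1) = 2 * 2 ^ j := by ring
      _ ≤ (∑ p ∈ P, (1 / (p : ℝ))) * ∑ n ∈ D, (a n : ℝ) / n :=
          mul_le_mul h2 ih (by positivity) (by linarith)
      _ = ∑ z ∈ P ×ˢ D, (a z.2 : ℝ) / ((z.1 * z.2 : ℕ) : ℝ) := by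
          rw [Finset.sum_mul_sum, Finset.sum_product]
          refine Finset.sum_congr rfl fun p _ => Finset.sum_congr rfl fun m _ => ?_
          push_cast
          rw [div_mul_div_comm, one_mul]
      _ = ∑ n ∈ ((∏ p ∈ P, p) ^ (j + 1)).divisors, ∑ z ∈ (P ×ˢ D).filter (fun z => z.1 * z.2 = n),
            (a z.2 : ℝ) / ((z.1 * z.2 : ℕ) : ℝ) := (Finset.sum_fiberwise_of_maps_to hmap _).symm
      _ ≤ _ := by
          refine Finset.sum_le_sum fun n hn => ?_
          have hn0 : 0 < n := Nat.pos_of_mem_divisors hn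
          have e : ∑ z ∈ (P ×ˢ D).filter (fun z => z.1 * z.2 = n),
              (a z.2 : ℝ) / ((z.1 * z.2 : ℕ) : ℝ) =
              (∑ z ∈ (P ×ˢ D).filter (fun z => z.1 * z.2 = n), (a z.2 : ℝ)) / n := by
            rw [Finset.sum_div]
            refine Finset.sum_congr rfl fun z hz => ?_
            rw [(mem_filter.1 hz).2]
          rw [e]
          refine div_le_div_of_nonneg_right ?_ (by positivity)
          have hinj : Set.InjOn (fun z : ℕ × ℕ => z.2)
              ((P ×ˢ D).filter (fun z => z.1 * z.2 = n) : Finset (ℕ × ℕ)) := by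
            rintro ⟨p, m⟩ hz ⟨p', m'⟩ hz' h
            simp only [coe_filter, Set.mem_ofPred_eq] at hz hz' h
            subst h
            have hm : 0 < m := by
              rcases Nat.eq_zero_or_pos m with rfl | h0
              · simp at hz; omega
              · exact h0
            rw [Nat.eq_of_mul_eq_mul_right hm (hz.2.trans hz'.2.symm)]
          rw [← Finset.sum_image (f := fun m => (a m : ℝ)) hinj, a_eq n]
          push_cast
          refine le_add_of_nonneg_of_le (by norm_num)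
            (Finset.sum_le_sum_of_subset_of_nonneg ?_ fun _ _ _ => by positivity)
          intro m hm
          simp only [mem_image, mem_filter, mem_product] at hm
          obtain ⟨⟨p, m'⟩, ⟨⟨hp, -⟩, hz⟩, rfl⟩ := hm
          have := (hP p hp).two_le
          simp only at hz ⊢
          refine Nat.mem_properDivisors.2 ⟨Dvd.intro_left _ hz, ?_⟩
          rcases Nat.eq_zero_or_pos m' with rfl | h0
          · exact hn0
          · nlinarith

lemma card_div (P : Finset ℕ) (hP : ∀ p ∈ P, p.Prime) (j : ℕ) :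
    ((∏ p ∈ P, p) ^ j).divisors.card ≤ (j + 1) ^ P.card := by
  classical
  induction P using Finset.induction_on with
  | empty => simp
  | insert q P hq ih =>
    rw [Finset.prod_insert hq, mul_pow, Nat.divisors_mul, Finset.card_insert_of_notMem hq, pow_succ']
    refine Finset.card_mul_le.trans (Nat.mul_le_mul ?_ (ih fun p hp => hP p (mem_insert_of_mem hp)))
    rw [Nat.divisors_prime_pow (hP q (mem_insert_self _ _)), Finset.card_map, Finset.card_range]

lemma main (B : ℕ) : ∃ n : ℕ, 0 < n ∧ n < a n ∧ ∀ q : ℕ, q.Prime → q ∣ n → B ≤ q := by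
  obtain ⟨P, hP, h2⟩ := exists_primes B
  have hlim := tendsto_pow_const_div_const_pow_of_one_lt P.card (by norm_num : (1 : ℝ) < 2)
  obtain ⟨j, hj, hj1⟩ := ((hlim.eventually (gt_mem_nhds (by norm_num : (0 : ℝ) < 1 / 2))).and
    (eventually_ge_atTop 1)).exists
  obtain ⟨j, rfl⟩ : ∃ i, j = i + 1 := ⟨j - 1, by omega⟩
  by_contra hcon
  push Not at hcon
  have h3 := grow P (fun p hp => (hP p hp).1) h2 j
  have h4 : ∑ n ∈ ((∏ p ∈ P, p) ^ j).divisors, (a n : ℝ) / n ≤
      ∑ n ∈ ((∏ p ∈ P, p) ^ j).divisors, (1 : ℝ) := by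
    refine Finset.sum_le_sum fun n hn => ?_
    have hn0 : 0 < n := Nat.pos_of_mem_divisors hn
    rw [div_le_one (by exact_mod_cast hn0)]
    by_contra hlt
    obtain ⟨q, hq, hd, hB⟩ := hcon n hn0 (by exact_mod_cast not_le.1 hlt)
    have h5 := hq.dvd_of_dvd_pow (hd.trans (Nat.dvd_of_mem_divisors hn))
    obtain ⟨p, hp, hqp⟩ := (Prime.dvd_finsetProd_iff hq.prime _).1 h5
    have := (Nat.prime_dvd_prime_iff_eq hq (hP p hp).1).1 hqp
    have := (hP p hp).2
    omega
  rw [Finset.sum_const, nsmul_eq_mul, mul_one] at h4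
  have h5 : ((((∏ p ∈ P, p) ^ j).divisors.card : ℕ) : ℝ) ≤ ((j + 1 : ℕ) : ℝ) ^ P.card := by
    exact_mod_cast card_div P (fun p hp => (hP p hp).1) j
  rw [div_lt_iff₀ (by positivity), pow_succ] at hj
  linarith

theorem result : ∀ k : ℕ, 1 ≤ k → ∃ n : ℕ, 0 < n ∧ n < a n ∧
    Nat.Coprime n (∏ i ∈ Finset.range k, Nat.nth Nat.Prime i) := by
  intro k _
  obtain ⟨n, h0, h1, h2⟩ := main (Nat.nth Nat.Prime k)
  refine ⟨n, h0, h1, Nat.Coprime.prod_right fun i hi => ?_⟩
  rw [Nat.coprime_comm, Nat.Prime.coprime_iff_not_dvd (Nat.prime_nth_prime i)]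
  intro hd
  have h3 := h2 _ (Nat.prime_nth_prime i) hd
  have h4 : Nat.nth Nat.Prime i < Nat.nth Nat.Prime k :=
    Nat.nth_strictMono Nat.infinite_setOfPred_prime (mem_range.1 hi)
  omega

end Pool.Agent.Results.MP_bbacab_nt.Ample
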